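import Pool.Agent.X64.Ddn.Ind

/-!
# MP_aa6a81_co, Q1: every outerplanar graph has degenerate distance number at most 2

Let `z` be a transcendental complex number of modulus `1`. The vertices of an outerplanar graph
are mapped to points `f(z)` with `f ∈ ℤ[X]` such that the difference of the polynomials of two
adjacent vertices is `± X ^ k` or `± X ^ k (X - 1)`, so that all edges have length `1` or
`|z - 1|`. The polynomials are found by a recursion over a triangulation; injectivity is proved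
with the help of the order of `ℤ[X]` in which `X` is a positive infinitesimal.
-/

namespace Pool.Agent.Results.MP_aa6a81_co.TwoLengths

open Pool.Agent.X64.Ddn Polynomial

/-- The Euclidean plane. -/
abbrev Plane := EuclideanSpace ℝ (Fin 2)

/-- Outerplanar graphs in the standard combinatorial form: the vertices can be placed on a circle
(in the order given by `σ`) so that no two edges, drawn as chords, cross. -/
def Outerplanar {V : Type} (G : SimpleGraph V) : Prop :=
  ∃ σ : V → ℕ, Function.Injective σ ∧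
    ∀ a b c d : V, σ a < σ b → σ b < σ c → σ c < σ d → ¬ (G.Adj a c ∧ G.Adj b d)

/-- The set of edge lengths of the drawing `p` of `G`. -/
def edgeLengths {V : Type} (G : SimpleGraph V) (p : V → Plane) : Set ℝ :=
  {l | ∃ u v, G.Adj u v ∧ l = dist (p u) (p v)}

/-- The degenerate distance number: the least `k` such that some injective `p` has at most `k`
edge lengths. -/
noncomputable def ddn {V : Type} (G : SimpleGraph V) : ℕ :=
  sInf {k : ℕ | ∃ p : V → Plane, Function.Injective p ∧ (edgeLengths G p).encard ≤ k}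

theorem exists_transcendental : ∃ z : ℂ, ‖z‖ = 1 ∧ Transcendental ℤ z := by
  by_contra hcon
  push Not at hcon
  have h1 : {z : ℂ | ‖z‖ = 1}.Countable := by
    refine (Algebraic.countable ℤ ℂ).mono ?_
    intro z hz
    exact not_not.1 (hcon z hz)
  have h2 : (Complex.re '' {z : ℂ | ‖z‖ = 1}).Countable := h1.image _
  have h3 : Set.Icc (0 : ℝ) 1 ⊆ Complex.re '' {z : ℂ | ‖z‖ = 1} := by
    intro t ht
    refine ⟨⟨t, Real.sqrt (1 - t ^ 2)⟩, ?_, rfl⟩
    have h4 : 0 ≤ 1 - t ^ 2 := by nlinarith [ht.1, ht.2]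
    show ‖(⟨t, Real.sqrt (1 - t ^ 2)⟩ : ℂ)‖ = 1
    rw [Complex.norm_def, Complex.normSq_mk, Real.mul_self_sqrt h4]
    rw [show t * t + (1 - t ^ 2) = 1 by ring, Real.sqrt_one]
  have h5 := h2.mono h3
  rw [← Cardinal.le_aleph0_iff_set_countable, Cardinal.mk_Icc_real zero_lt_one] at h5
  exact absurd h5 (not_le.2 Cardinal.aleph0_lt_continuum)

theorem norm_al {z : ℂ} (hz : ‖z‖ = 1) {δ : ℤ[X]} (h : Al δ) :
    ‖aeval z δ‖ = 1 ∨ ‖aeval z δ‖ = ‖z - 1‖ := by
  obtain ⟨k, rfl | rfl | rfl | rfl⟩ := h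
  · left; simp [hz]
  · left; simp [hz]
  · right; simp [hz]
  · right; simp [hz]

/-- A drawing with at most two edge lengths. -/
theorem exists_drawing {V : Type} [Fintype V] {G : SimpleGraph V} (hG : Outerplanar G) :
    ∃ p : V → Plane, Function.Injective p ∧ (edgeLengths G p).encard ≤ 2 := by
  classical
  obtain ⟨σ, hσ, hcr⟩ := hG
  obtain ⟨z, hz, htr⟩ := exists_transcendental
  set E : ℕ → ℕ → Prop := fun a b => ∃ u v, σ u = a ∧ σ v = b ∧ G.Adj u v with hEdef
  have hE : NonCross E := by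
    rintro a b c d hab hbc hcd ⟨u, v, rfl, rfl, huv⟩ ⟨u', v', rfl, rfl, huv'⟩
    exact hcr u u' v v' hab hbc hcd ⟨huv, huv'⟩
  obtain ⟨N, hN⟩ : ∃ N, ∀ v, σ v ≤ N := by
    refine ⟨Finset.univ.sup σ, fun v => Finset.le_sup (Finset.mem_univ v)⟩
  obtain ⟨f, hf1, hf2⟩ := exists_poly_drawing hE N
  have hinj : Function.Injective (aeval z : ℤ[X] → ℂ) := transcendental_iff_injective.1 htr
  let e := Complex.orthonormalBasisOneI.repr
  refine ⟨fun v => e (aeval z (f (σ v))), ?_, ?_⟩
  · intro u v h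
    exact hσ (hf1 _ _ (hN u) (hN v) (hinj (e.injective h)))
  · have hsub : edgeLengths G (fun v => e (aeval z (f (σ v)))) ⊆ {1, ‖z - 1‖} := by
      rintro l ⟨u, v, huv, rfl⟩
      have hne : σ u ≠ σ v := fun h => huv.ne (hσ h)
      have key : ∀ a b : V, σ a < σ b → G.Adj a b →
          dist (e (aeval z (f (σ a)))) (e (aeval z (f (σ b)))) ∈ ({1, ‖z - 1‖} : Set ℝ) := by
        intro a b hab hadj
        have h1 := hf2 (σ a) (σ b) hab (hN b) ⟨a, b, rfl, rfl, hadj⟩
        rw [LinearIsometryEquiv.dist_map, dist_comm, dist_eq_norm, ← map_sub]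
        exact norm_al hz h1
      rcases lt_or_gt_of_ne hne with h | h
      · exact key u v h huv
      · rw [dist_comm]
        exact key v u h huv.symm
    refine (Set.encard_le_encard hsub).trans ?_
    refine (Set.encard_insert_le _ _).trans ?_
    rw [Set.encard_singleton]
    norm_num

/-- The fan: vertex `0` is joined to the vertices `1, …, 7` of a path. -/
def fan : SimpleGraph (Fin 8) where
  Adj a b := a ≠ b ∧ (a = 0 ∨ b = 0 ∨ (a : ℕ) + 1 = b ∨ (b : ℕ) + 1 = a)
  symm := by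
    constructor
    rintro a b ⟨h1, h2⟩
    exact ⟨h1.symm, by tauto⟩
  loopless := ⟨fun a h => h.1 rfl⟩

theorem fan_outerplanar : Outerplanar fan := by
  refine ⟨fun v => v, Fin.val_injective, ?_⟩
  rintro a b c d h1 h2 h3 ⟨⟨-, h4⟩, -, h5⟩
  simp only [Fin.ext_iff, Fin.val_zero] at h1 h2 h3 h4 h5
  omega

theorem root_of_norm {a b : ℂ} (ha : a ≠ 0) (h1 : ‖b‖ = ‖a‖) (h2 : ‖a - b‖ = ‖a‖) :
    b ^ 2 - a * b + a ^ 2 = 0 := by
  have hb : b ≠ 0 := by
    intro h
    rw [h, norm_zero] at h1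
    exact ha (norm_eq_zero.1 h1.symm)
  have e1 : b * (starRingEnd ℂ) b = a * (starRingEnd ℂ) a := by
    rw [Complex.mul_conj', Complex.mul_conj', h1]
  have e2 : (a - b) * (starRingEnd ℂ) (a - b) = a * (starRingEnd ℂ) a := by
    rw [Complex.mul_conj', Complex.mul_conj', h2]
  rw [map_sub] at e2
  set a' := (starRingEnd ℂ) a
  set b' := (starRingEnd ℂ) b
  have ha' : a' ≠ 0 := by
    intro h
    exact ha ((map_eq_zero (starRingEnd ℂ)).1 h)
  have key : a' * (b ^ 2 - a * b + a ^ 2) = 0 := by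
    linear_combination (b - a) * e1 - b * e2
  rcases mul_eq_zero.1 key with h | h
  · exact absurd h ha'
  · exact h

theorem next_eq {a b c : ℂ} (ha : a ≠ 0) (hb : b ≠ 0) (h1 : ‖b‖ = ‖a‖) (h2 : ‖c‖ = ‖b‖)
    (h3 : ‖a - b‖ = ‖a‖) (h4 : ‖b - c‖ = ‖b‖) (hac : a ≠ c) : c = b - a := by
  have e1 := root_of_norm ha h1 h3
  have e2 := root_of_norm hb h2 h4
  have key : (c - a) * (c - (b - a)) = 0 := by linear_combination e2 - e1
  rcases mul_eq_zero.1 key with h | h
  · exact absurd (sub_eq_zero.1 h).symm hac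
  · exact sub_eq_zero.1 h

theorem fan_lower {p : Fin 8 → Plane} (hp : Function.Injective p) :
    ¬ (edgeLengths fan p).encard ≤ 1 := by
  intro hle
  rw [Set.encard_le_one_iff] at hle
  have hall : ∀ u v u' v', fan.Adj u v → fan.Adj u' v' → dist (p u) (p v) = dist (p u') (p v') :=
    fun u v u' v' h h' => hle _ _ ⟨u, v, h, rfl⟩ ⟨u', v', h', rfl⟩
  let e := Complex.orthonormalBasisOneI.repr
  set q : Fin 8 → ℂ := fun v => e.symm (p v) with hq
  have hqd : ∀ u v, ‖q u - q v‖ = dist (p u) (p v) := by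
    intro u v
    rw [← dist_eq_norm, hq]
    exact e.symm.dist_map _ _
  have hqi : Function.Injective q := fun u v h => hp (e.symm.injective h)
  have a01 : fan.Adj 1 0 := ⟨by decide, Or.inr (Or.inl rfl)⟩
  have h0 : ∀ i : Fin 8, i ≠ 0 → ‖q i - q 0‖ = dist (p 1) (p 0) := by
    intro i hi
    rw [hqd]
    exact hall _ _ _ _ ⟨hi, Or.inr (Or.inl rfl)⟩ a01
  have h1 : ∀ i j : Fin 8, (i : ℕ) + 1 = j → ‖q i - q j‖ = dist (p 1) (p 0) := by
    intro i j hij
    rw [hqd]
    refine hall _ _ _ _ ⟨?_, Or.inr (Or.inr (Or.inl hij))⟩ a01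
    rintro rfl
    omega
  have hne : ∀ i : Fin 8, i ≠ 0 → q i - q 0 ≠ 0 := fun i hi h => hi (hqi (sub_eq_zero.1 h))
  have hstep : ∀ i j k : Fin 8, i ≠ 0 → j ≠ 0 → k ≠ 0 → (i : ℕ) + 1 = j → (j : ℕ) + 1 = k →
      q k - q 0 = (q j - q 0) - (q i - q 0) := by
    intro i j k hi hj hk hij hjk
    refine next_eq (hne i hi) (hne j hj) ?_ ?_ ?_ ?_ ?_
    · rw [h0 i hi, h0 j hj]
    · rw [h0 k hk, h0 j hj]
    · rw [sub_sub_sub_cancel_right, h0 i hi, h1 i j hij]
    · rw [sub_sub_sub_cancel_right, h0 j hj, h1 j k hjk]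
    · intro h
      have := hqi (sub_left_inj.1 h)
      subst this
      omega
  have s1 := hstep 1 2 3 (by decide) (by decide) (by decide) rfl rfl
  have s2 := hstep 2 3 4 (by decide) (by decide) (by decide) rfl rfl
  have s3 := hstep 3 4 5 (by decide) (by decide) (by decide) rfl rfl
  have s4 := hstep 4 5 6 (by decide) (by decide) (by decide) rfl rfl
  have s5 := hstep 5 6 7 (by decide) (by decide) (by decide) rfl rfl
  have h71 : q 7 = q 1 := by linear_combination s5 + s4 - s2 - s1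
  have := hqi h71
  exact absurd this (by decide)

/-- **Q1: yes.** Every outerplanar graph `G` satisfies `ddn(G) ≤ 2`, that is, it has a degenerate
drawing with at most two edge lengths; and the value `2` occurs, so the maximum of `ddn` over all
outerplanar graphs is `2`. -/
theorem result :
    (∀ (V : Type) [Fintype V] (G : SimpleGraph V), Outerplanar G →
      ddn G ≤ 2 ∧ ∃ p : V → Plane, Function.Injective p ∧ (edgeLengths G p).encard ≤ 2) ∧
    ∃ (n : ℕ) (G : SimpleGraph (Fin n)), Outerplanar G ∧ ddn G = 2 := by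
  have h1 : ∀ (V : Type) [Fintype V] (G : SimpleGraph V), Outerplanar G →
      ddn G ≤ 2 ∧ ∃ p : V → Plane, Function.Injective p ∧ (edgeLengths G p).encard ≤ 2 := by
    intro V _ G hG
    have h := exists_drawing hG
    exact ⟨Nat.sInf_le h, h⟩
  refine ⟨h1, 8, fan, fan_outerplanar, le_antisymm (h1 _ fan fan_outerplanar).1 ?_⟩
  obtain ⟨h2, h3⟩ := h1 _ fan fan_outerplanar
  refine le_csInf ⟨2, h3⟩ ?_
  rintro k ⟨p, hp, hk⟩
  by_contra hlt
  have hk1 : k ≤ 1 := by omega
  refine fan_lower hp (hk.trans ?_)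
  exact_mod_cast hk1

end Pool.Agent.Results.MP_aa6a81_co.TwoLengths
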